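import Pool.Agent.TH749.PJ.Stm

set_option autoImplicit false

/-!
The three pieces together: separation of jets on a surface at the points over general points of
the plane.
-/

namespace Pool.Agent.TH623.PJ

open Pool.Agent.TH749.PJ MvPolynomial Pool.Agent.W607

theorem glue (h1 : S_P1) (h2 : S_P2) (h3 : S_P3) (d n M E : ℕ)
    (F : MvPolynomial (Fin (3 + 1)) ℂ) (hd : 1 ≤ d) (hF : F.IsHomogeneous d)
    (hirr : Irreducible F) (hF1 : eval ![0, 0, 0, 1] F ≠ 0) (hn : 10 ≤ n)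
    (hE : √(n : ℝ) * (M + 1) < E + 3) :
    ∃ w : Fin (n * d) → Fin (3 + 1) → ℂ, (∀ q, w q 0 = 1) ∧ (∀ q, eval (w q) F = 0) ∧
      Sep (Ideal.span {F}) (X 0) (E + d - 1) M w := by
  classical
  obtain ⟨Φ, hΦ, HΦ⟩ := h1 n M E hn hE
  obtain ⟨Ψ, hΨ, HΨ⟩ := h2 d F hd hF hirr hF1
  let Ψi : Fin n → MvPolynomial (Fin n × Fin 2) ℂ := fun i => rename (fun k => (i, k)) Ψ
  let Δ : Fin n × Fin n → MvPolynomial (Fin n × Fin 2) ℂ := fun e =>
    if e.1 = e.2 then 1 else X (e.1, 0) - X (e.2, 0)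
  have hΨi : ∀ i, Ψi i ≠ 0 := by
    intro i h
    apply hΨ
    have hinj : Function.Injective (fun k : Fin 2 => ((i, k) : Fin n × Fin 2)) := by
      intro a b hab
      exact (Prod.ext_iff.1 hab).2
    exact rename_injective _ hinj (by rw [map_zero]; exact h)
  have hΔ : ∀ e, Δ e ≠ 0 := by
    intro e
    simp only [Δ]
    split_ifs with h
    · exact one_ne_zero
    · rw [sub_ne_zero]
      intro h0
      have := X_injective h0
      exact h (Prod.ext_iff.1 this).1
  have hprod : Φ * (∏ i, Ψi i) * (∏ e, Δ e) ≠ 0 :=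
    mul_ne_zero (mul_ne_zero hΦ (Finset.prod_ne_zero_iff.2 fun i _ => hΨi i))
      (Finset.prod_ne_zero_iff.2 fun e _ => hΔ e)
  have hp : ∃ p : Fin n × Fin 2 → ℂ, eval p (Φ * (∏ i, Ψi i) * (∏ e, Δ e)) ≠ 0 := by
    by_contra hcon
    push Not at hcon
    exact hprod (MvPolynomial.funext fun p => by rw [hcon p, map_zero])
  obtain ⟨p, hp⟩ := hp
  rw [map_mul, map_mul, map_prod, map_prod] at hp
  have hp1 : eval p Φ ≠ 0 := left_ne_zero_of_mul (left_ne_zero_of_mul hp)
  have hp2 : ∀ i, eval p (Ψi i) ≠ 0 := fun i =>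
    Finset.prod_ne_zero_iff.1 (right_ne_zero_of_mul (left_ne_zero_of_mul hp)) i (Finset.mem_univ i)
  have hp3 : ∀ e, eval p (Δ e) ≠ 0 := fun e =>
    Finset.prod_ne_zero_iff.1 (right_ne_zero_of_mul hp) e (Finset.mem_univ e)
  let P : Fin n → Fin 2 → ℂ := fun i k => p (i, k)
  have hPinj : Function.Injective P := by
    intro i j hij
    by_contra hne
    have h4 := hp3 (i, j)
    simp only [Δ] at h4
    rw [if_neg hne, map_sub, eval_X, eval_X] at h4
    exact h4 (sub_eq_zero.2 (congrFun hij 0))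
  have hroots : ∀ i, ∃ t : Fin d → ℂ, Function.Injective t ∧
      ∀ j, eval ![1, P i 0, P i 1, t j] F = 0 := by
    intro i
    apply HΨ
    have h4 := hp2 i
    simp only [Ψi] at h4
    rw [eval_rename] at h4
    have h5 : (p ∘ fun k : Fin 2 => ((i, k) : Fin n × Fin 2)) = ![P i 0, P i 1] := by
      funext k
      fin_cases k <;> rfl
    rwa [h5] at h4
  choose t ht1 ht2 using hroots
  refine ⟨fun q : Fin (n * d) => ![1, P (finProdFinEquiv.symm q).1 0,
    P (finProdFinEquiv.symm q).1 1,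
    t (finProdFinEquiv.symm q).1 (finProdFinEquiv.symm q).2], fun q => rfl, fun q => ht2 _ _, ?_⟩
  exact h3 d n E M F hd hF hF1 P hPinj (HΦ P hp1) t ht1 ht2

end Pool.Agent.TH623.PJ
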