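import Pool.Agent.TH749.PJ.Stm

set_option autoImplicit false

/-!
(P2): distinct roots over a general point of the plane.
-/

namespace Pool.Agent.TH623.PJ

open Pool.Agent.TH749.PJ

section gauss

open Polynomial

/-- Bezout identity for a monic irreducible polynomial and its derivative. -/
theorem bez {A : Type*} [CommRing A] [IsDomain A] [IsIntegrallyClosed A] [CharZero A]
    (f : A[X]) (hm : f.Monic) (hi : Irreducible f) :
    ∃ (a b : A[X]) (r : A), r ≠ 0 ∧ a * f + b * derivative f = C r := by
  let K := FractionRing A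
  have hinj : Function.Injective (algebraMap A K) := IsFractionRing.injective A K
  have h1 : Irreducible (f.map (algebraMap A K)) :=
    (Monic.irreducible_iff_irreducible_map_fraction_map hm).1 hi
  obtain ⟨a, b, hab⟩ := h1.separable
  obtain ⟨s, hs0, hs⟩ := IsLocalization.integerNormalization_spec (nonZeroDivisors A) a
  obtain ⟨t, ht0, ht⟩ := IsLocalization.integerNormalization_spec (nonZeroDivisors A) b
  refine ⟨C t * IsLocalization.integerNormalization (nonZeroDivisors A) a,
    C s * IsLocalization.integerNormalization (nonZeroDivisors A) b, s * t,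
    mul_ne_zero (nonZeroDivisors.ne_zero hs0) (nonZeroDivisors.ne_zero ht0), ?_⟩
  apply Polynomial.map_injective (algebraMap A K) hinj
  rw [Polynomial.map_add, Polynomial.map_mul, Polynomial.map_mul, Polynomial.map_mul,
    Polynomial.map_mul, hs, ht, Polynomial.map_C, Polynomial.map_C, Polynomial.map_C,
    ← derivative_map, Algebra.smul_def, Algebra.smul_def, map_mul]
  have e1 : ∀ z : A, (algebraMap A K[X]) z = C (algebraMap A K z) := fun z => rfl
  rw [e1, e1, C_mul]
  have h2 : C ((algebraMap A K) t) * (C ((algebraMap A K) s) * a) *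
      Polynomial.map (algebraMap A K) f +
      C ((algebraMap A K) s) * (C ((algebraMap A K) t) * b) *
        derivative (Polynomial.map (algebraMap A K) f) =
      C ((algebraMap A K) s) * C ((algebraMap A K) t) *
        (a * Polynomial.map (algebraMap A K) f +
          b * derivative (Polynomial.map (algebraMap A K) f)) := by ring
  rw [h2, hab, mul_one]

end gauss

open MvPolynomial

theorem degree_cons (i : ℕ) (m : Fin 3 →₀ ℕ) :
    Finsupp.degree (Finsupp.cons i m) = i + Finsupp.degree m := by
  rw [Finsupp.degree_eq_sum, Finsupp.degree_eq_sum, Fin.sum_univ_succ]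
  simp [Finsupp.cons_zero, Finsupp.cons_succ]

/-- the statement for the distinguished variable `X 0` -/
theorem core (d : ℕ) (hd : 1 ≤ d) (F : MvPolynomial (Fin (3 + 1)) ℂ) (hh : F.IsHomogeneous d)
    (hirr : Irreducible F) (hc : eval (Fin.cons 1 0 : Fin (3 + 1) → ℂ) F ≠ 0) :
    ∃ r : MvPolynomial (Fin 3) ℂ, r ≠ 0 ∧ ∀ x : Fin 3 → ℂ, eval x r ≠ 0 →
      ∃ t : Fin d → ℂ, Function.Injective t ∧
        ∀ j, eval (Fin.cons (t j) x : Fin (3 + 1) → ℂ) F = 0 := by
  classical
  set f : Polynomial (MvPolynomial (Fin 3) ℂ) := finSuccEquiv ℂ 3 F with hf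
  have hcoef : ∀ (i : ℕ) (m : Fin 3 →₀ ℕ), coeff m (f.coeff i) = coeff (m.cons i) F :=
    fun i m => finSuccEquiv_coeff_coeff m F i
  have hz : ∀ (i : ℕ) (m : Fin 3 →₀ ℕ), i + Finsupp.degree m ≠ d → coeff (m.cons i) F = 0 := by
    intro i m h
    apply hh.coeff_eq_zero
    rw [degree_cons]
    exact h
  have hnat : f.natDegree ≤ d := by
    rw [Polynomial.natDegree_le_iff_coeff_eq_zero]
    intro i hi
    ext m
    rw [hcoef, coeff_zero]
    exact hz i m (by omega)
  set c : ℂ := coeff (Finsupp.cons d (0 : Fin 3 →₀ ℕ)) F with hcdef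
  have hcd : f.coeff d = C c := by
    ext m
    rw [hcoef, coeff_C]
    by_cases h : (0 : Fin 3 →₀ ℕ) = m
    · rw [if_pos h, ← h]
    · rw [if_neg h]
      apply hz
      have : Finsupp.degree m ≠ 0 := by
        intro h0
        exact h ((Finsupp.degree_eq_zero_iff m).1 h0).symm
      omega
  have hc0 : c ≠ 0 := by
    intro h0
    apply hc
    rw [eval_eq_eval_mv_eval' (0 : Fin 3 → ℂ) 1 F, ← hf]
    rw [Polynomial.eval_eq_sum_range' (n := d + 1)
      (lt_of_le_of_lt (Polynomial.natDegree_map_le.trans hnat) (Nat.lt_succ_self d))]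
    apply Finset.sum_eq_zero
    intro i hi
    rw [Polynomial.coeff_map]
    have h1 : eval (0 : Fin 3 → ℂ) (f.coeff i) = coeff 0 (f.coeff i) := by
      rw [← constantCoeff_eq]
      exact congrFun (congrArg DFunLike.coe (eval_zero (σ := Fin 3) (R := ℂ))) (f.coeff i)
    rw [h1, hcoef]
    by_cases h : i = d
    · rw [h, ← hcdef, h0, zero_mul]
    · rw [hz i 0 (by simpa using h), zero_mul]
  have hfd : f.natDegree = d := by
    apply le_antisymm hnat
    apply Polynomial.le_natDegree_of_ne_zero
    rw [hcd]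
    simpa using hc0
  set g : Polynomial (MvPolynomial (Fin 3) ℂ) := Polynomial.C (C c⁻¹) * f with hg
  have hu : IsUnit (Polynomial.C (C c⁻¹ : MvPolynomial (Fin 3) ℂ)) := by
    apply IsUnit.map
    apply IsUnit.map
    exact isUnit_iff_ne_zero.2 (inv_ne_zero hc0)
  have hgm : g.Monic := by
    rw [Polynomial.Monic.def, hg, Polynomial.leadingCoeff_mul, Polynomial.leadingCoeff_C,
      Polynomial.leadingCoeff, hfd, hcd, ← C_mul, inv_mul_cancel₀ hc0, C_1]
  have hfi : Irreducible f := (MulEquiv.irreducible_iff (finSuccEquiv ℂ 3)).2 hirr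
  have hgi : Irreducible g := (irreducible_isUnit_mul hu).2 hfi
  have hgd : g.natDegree = d := by
    rw [hg, Polynomial.natDegree_C_mul_of_isUnit ?_, hfd]
    apply IsUnit.map
    exact isUnit_iff_ne_zero.2 (inv_ne_zero hc0)
  obtain ⟨a, b, r, hr, hab⟩ := bez g hgm hgi
  refine ⟨r, hr, fun x hx => ?_⟩
  set gx : Polynomial ℂ := g.map (eval x) with hgx
  have hsep : gx.Separable := by
    refine ⟨Polynomial.C (eval x r)⁻¹ * a.map (eval x), Polynomial.C (eval x r)⁻¹ * b.map (eval x),
      ?_⟩
    have h1 : a.map (eval x) * gx + b.map (eval x) * Polynomial.derivative gx =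
        Polynomial.C (eval x r) := by
      rw [hgx, Polynomial.derivative_map, ← Polynomial.map_mul, ← Polynomial.map_mul,
        ← Polynomial.map_add, hab, Polynomial.map_C]
    have h2 : Polynomial.C (eval x r)⁻¹ * a.map (eval x) * gx +
        Polynomial.C (eval x r)⁻¹ * b.map (eval x) * Polynomial.derivative gx =
        Polynomial.C (eval x r)⁻¹ * (a.map (eval x) * gx +
          b.map (eval x) * Polynomial.derivative gx) := by ring
    rw [h2, h1, ← Polynomial.C_mul, inv_mul_cancel₀ hx, Polynomial.C_1]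
  have hgxm : gx.Monic := hgm.map _
  have hgxd : gx.natDegree = d := by rw [hgx, hgm.natDegree_map, hgd]
  have hcard : gx.roots.toFinset.card = d := by
    rw [Multiset.toFinset_card_of_nodup (Polynomial.nodup_roots hsep),
      ← (IsAlgClosed.splits gx).natDegree_eq_card_roots, hgxd]
  let e := Finset.equivFinOfCardEq hcard
  refine ⟨fun j => (e.symm j : ℂ), fun i j hij => e.symm.injective (Subtype.ext hij), fun j => ?_⟩
  have hj : (e.symm j : ℂ) ∈ gx.roots.toFinset := (e.symm j).2
  have key : ∀ s : ℂ, s ∈ gx.roots.toFinset → eval (Fin.cons s x : Fin (3 + 1) → ℂ) F = 0 := by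
    intro s hs
    rw [Multiset.mem_toFinset, Polynomial.mem_roots hgxm.ne_zero, Polynomial.IsRoot.def, hgx, hg,
      Polynomial.map_mul, Polynomial.map_C, Polynomial.eval_mul, Polynomial.eval_C, eval_C] at hs
    rw [eval_eq_eval_mv_eval' x _ F]
    exact (mul_eq_zero.1 hs).resolve_left (inv_ne_zero hc0)
  exact key _ hj

theorem eval_scale {d : ℕ} {F : MvPolynomial (Fin (3 + 1)) ℂ} (hh : F.IsHomogeneous d) (l : ℂ)
    (v : Fin (3 + 1) → ℂ) : eval (fun i => l * v i) F = l ^ d * eval v F := by
  classical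
  rw [eval_eq', eval_eq', Finset.mul_sum]
  refine Finset.sum_congr rfl fun α hα => ?_
  have h1 : Finsupp.degree α = d := by
    by_contra h
    exact (mem_support_iff.1 hα) (hh.coeff_eq_zero h)
  have h2 : ∏ i, (l * v i) ^ α i = l ^ d * ∏ i, v i ^ α i := by
    simp only [mul_pow]
    rw [Finset.prod_mul_distrib, Finset.prod_pow_eq_pow_sum, ← Finsupp.degree_eq_sum, h1]
  rw [h2]
  ring

theorem t_P2 : S_P2 := by
  classical
  intro d F hd hh hirr hc
  let σ : Fin (3 + 1) ≃ Fin (3 + 1) := finRotate 4
  set F' : MvPolynomial (Fin (3 + 1)) ℂ := rename σ F with hF'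
  have hev : ∀ (t : ℂ) (x : Fin 3 → ℂ),
      eval (Fin.cons t x : Fin (3 + 1) → ℂ) F' = eval ![x 0, x 1, x 2, t] F := by
    intro t x
    rw [hF', eval_rename]
    congr 1
    congr 1
    funext i
    fin_cases i <;> rfl
  have hirr' : Irreducible F' := (MulEquiv.irreducible_iff (renameEquiv ℂ σ)).2 hirr
  obtain ⟨r, hr, H⟩ := core d hd F' hh.rename_isHomogeneous hirr' (by
    rw [hev]
    exact hc)
  have hx : ∃ x : Fin 3 → ℂ, eval x (r * X 0) ≠ 0 := by
    by_contra hcon
    push Not at hcon
    have : r * X 0 = 0 := MvPolynomial.funext fun x => by rw [hcon x, map_zero]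
    exact (mul_ne_zero hr (X_ne_zero 0)) this
  obtain ⟨x, hx⟩ := hx
  rw [map_mul, eval_X] at hx
  have hrx : eval x r ≠ 0 := left_ne_zero_of_mul hx
  have hl : x 0 ≠ 0 := right_ne_zero_of_mul hx
  set l : ℂ := x 0 with hldef
  let Ψ : MvPolynomial (Fin 2) ℂ := aeval ![C l, C l * X 0, C l * X 1] r
  have hΨ : ∀ a b : ℂ, eval ![a, b] Ψ = eval ![l, l * a, l * b] r := by
    intro a b
    have hcomp : (eval ![a, b]).comp
        (aeval (![C l, C l * X 0, C l * X 1] : Fin 3 → MvPolynomial (Fin 2) ℂ) :
          MvPolynomial (Fin 3) ℂ →ₐ[ℂ] MvPolynomial (Fin 2) ℂ).toRingHom =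
        eval ![l, l * a, l * b] := by
      apply MvPolynomial.ringHom_ext
      · intro z
        simp
      · intro i
        fin_cases i <;> simp
    exact RingHom.congr_fun hcomp r
  refine ⟨Ψ, ?_, fun a b hab => ?_⟩
  · intro h0
    have h1 := hΨ (x 1 / l) (x 2 / l)
    rw [h0, map_zero] at h1
    apply hrx
    rw [h1]
    congr 1
    congr 1
    funext i
    fin_cases i
    · rfl
    · show x 1 = l * (x 1 / l)
      field_simp
    · show x 2 = l * (x 2 / l)
      field_simp
  · rw [hΨ] at hab
    obtain ⟨t, ht, ht0⟩ := H _ hab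
    refine ⟨fun j => t j / l, fun i j hij => ht ?_, fun j => ?_⟩
    · have : t i / l = t j / l := hij
      field_simp at this
      exact this
    · have h1 := ht0 j
      rw [hev] at h1
      have h2 := eval_scale hh l ![1, a, b, t j / l]
      have h3 : (fun i => l * (![1, a, b, t j / l] : Fin (3 + 1) → ℂ) i) =
          ![l, l * a, l * b, t j] := by
        funext i
        fin_cases i
        · show l * 1 = l
          ring
        · rfl
        · rfl
        · show l * (t j / l) = t j
          field_simp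
      rw [h3] at h2
      have h4 : eval ![l, l * a, l * b, t j] F = 0 := h1
      rw [h4] at h2
      exact (mul_eq_zero.1 h2.symm).resolve_left (pow_ne_zero _ hl)

end Pool.Agent.TH623.PJ
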