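import Pool.Agent.TH623.PJ.P2

set_option autoImplicit false

/-!
A smooth point of the surface in the chart `x_0 = 1`.
-/

namespace Pool.Agent.TH623.PJ

open MvPolynomial

theorem fse_pderiv (G : MvPolynomial (Fin (3 + 1)) ℂ) :
    finSuccEquiv ℂ 3 (pderiv 0 G) = Polynomial.derivative (finSuccEquiv ℂ 3 G) := by
  induction G using MvPolynomial.induction_on with
  | C a =>
    rw [pderiv_C, map_zero]
    have : finSuccEquiv ℂ 3 (C a) = Polynomial.C (C a) := by simp [finSuccEquiv_apply]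
    rw [this, Polynomial.derivative_C]
  | add p q hp hq => rw [map_add, map_add, map_add, Polynomial.derivative_add, hp, hq]
  | mul_X p i hp =>
    rw [Derivation.leibniz, map_add, smul_eq_mul, smul_eq_mul, map_mul, map_mul, hp, map_mul,
      Polynomial.derivative_mul]
    have hX : finSuccEquiv ℂ 3 (pderiv 0 (X i)) =
        Polynomial.derivative (finSuccEquiv ℂ 3 (X i)) := by
      refine Fin.cases ?_ (fun j => ?_) i
      · rw [pderiv_X_self, map_one, finSuccEquiv_X_zero, Polynomial.derivative_X]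
      · rw [pderiv_X_of_ne (Fin.succ_ne_zero j), map_zero, finSuccEquiv_X_succ,
          Polynomial.derivative_C]
    rw [hX]
    ring

/-- the statement for the distinguished variable `X 0`, with simple roots -/
theorem core2 (d : ℕ) (F : MvPolynomial (Fin (3 + 1)) ℂ) (hh : F.IsHomogeneous d)
    (hirr : Irreducible F) (hc : eval (Fin.cons 1 0 : Fin (3 + 1) → ℂ) F ≠ 0) :
    ∃ r : MvPolynomial (Fin 3) ℂ, r ≠ 0 ∧ ∀ x : Fin 3 → ℂ, eval x r ≠ 0 →
      ∀ s : ℂ, eval (Fin.cons s x : Fin (3 + 1) → ℂ) F = 0 →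
        eval (Fin.cons s x : Fin (3 + 1) → ℂ) (pderiv 0 F) ≠ 0 := by
  classical
  set f : Polynomial (MvPolynomial (Fin 3) ℂ) := finSuccEquiv ℂ 3 F with hf
  have hcoef : ∀ (i : ℕ) (m : Fin 3 →₀ ℕ), coeff m (f.coeff i) = coeff (m.cons i) F :=
    fun i m => finSuccEquiv_coeff_coeff m F i
  have hz : ∀ (i : ℕ) (m : Fin 3 →₀ ℕ), i + Finsupp.degree m ≠ d → coeff (m.cons i) F = 0 := by
    intro i m h
    apply hh.coeff_eq_zero
    rw [degree_cons]
    exact h
  have hnat : f.natDegree ≤ d := by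
    rw [Polynomial.natDegree_le_iff_coeff_eq_zero]
    intro i hi
    ext m
    rw [hcoef, coeff_zero]
    exact hz i m (by omega)
  set c : ℂ := coeff (Finsupp.cons d (0 : Fin 3 →₀ ℕ)) F with hcdef
  have hcd : f.coeff d = C c := by
    ext m
    rw [hcoef, coeff_C]
    by_cases h : (0 : Fin 3 →₀ ℕ) = m
    · rw [if_pos h, ← h]
    · rw [if_neg h]
      apply hz
      have : Finsupp.degree m ≠ 0 := by
        intro h0
        exact h ((Finsupp.degree_eq_zero_iff m).1 h0).symm
      omega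
  have hc0 : c ≠ 0 := by
    intro h0
    apply hc
    rw [eval_eq_eval_mv_eval' (0 : Fin 3 → ℂ) 1 F, ← hf]
    rw [Polynomial.eval_eq_sum_range' (n := d + 1)
      (lt_of_le_of_lt (Polynomial.natDegree_map_le.trans hnat) (Nat.lt_succ_self d))]
    apply Finset.sum_eq_zero
    intro i hi
    rw [Polynomial.coeff_map]
    have h1 : eval (0 : Fin 3 → ℂ) (f.coeff i) = coeff 0 (f.coeff i) := by
      rw [← constantCoeff_eq]
      exact congrFun (congrArg DFunLike.coe (eval_zero (σ := Fin 3) (R := ℂ))) (f.coeff i)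
    rw [h1, hcoef]
    by_cases h : i = d
    · rw [h, ← hcdef, h0, zero_mul]
    · rw [hz i 0 (by simpa using h), zero_mul]
  have hfd : f.natDegree = d := by
    apply le_antisymm hnat
    apply Polynomial.le_natDegree_of_ne_zero
    rw [hcd]
    simpa using hc0
  set g : Polynomial (MvPolynomial (Fin 3) ℂ) := Polynomial.C (C c⁻¹) * f with hg
  have hu : IsUnit (Polynomial.C (C c⁻¹ : MvPolynomial (Fin 3) ℂ)) := by
    apply IsUnit.map
    apply IsUnit.map
    exact isUnit_iff_ne_zero.2 (inv_ne_zero hc0)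
  have hgm : g.Monic := by
    rw [Polynomial.Monic.def, hg, Polynomial.leadingCoeff_mul, Polynomial.leadingCoeff_C,
      Polynomial.leadingCoeff, hfd, hcd, ← C_mul, inv_mul_cancel₀ hc0, C_1]
  have hfi : Irreducible f := (MulEquiv.irreducible_iff (finSuccEquiv ℂ 3)).2 hirr
  have hgi : Irreducible g := (irreducible_isUnit_mul hu).2 hfi
  obtain ⟨a, b, r, hr, hab⟩ := bez g hgm hgi
  refine ⟨r, hr, fun x hx s hs hs' => hx ?_⟩
  have h1 : Polynomial.eval s (f.map (eval x)) = 0 := by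
    rw [← eval_eq_eval_mv_eval' x s F]
    exact hs
  have h2 : Polynomial.eval s ((Polynomial.derivative f).map (eval x)) = 0 := by
    rw [hf, ← fse_pderiv, ← eval_eq_eval_mv_eval' x s]
    exact hs'
  have h3 : Polynomial.eval s (g.map (eval x)) = 0 := by
    rw [hg, Polynomial.map_mul, Polynomial.eval_mul, h1, mul_zero]
  have h4 : Polynomial.eval s ((Polynomial.derivative g).map (eval x)) = 0 := by
    rw [hg, Polynomial.derivative_C_mul, Polynomial.map_mul, Polynomial.eval_mul, h2, mul_zero]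
  have h5 := congrArg (fun p => Polynomial.eval s (Polynomial.map (eval x) p)) hab
  simp only [Polynomial.map_add, Polynomial.eval_add] at h5
  rw [Polynomial.map_mul, Polynomial.map_mul (p := b), Polynomial.eval_mul, Polynomial.eval_mul, h3,
    h4, mul_zero, mul_zero, add_zero, Polynomial.map_C, Polynomial.eval_C] at h5
  exact h5.symm

/-- **A smooth point in the chart `x_0 = 1`.** -/
theorem exists_smooth (d : ℕ) (F : MvPolynomial (Fin (3 + 1)) ℂ) (hd : 1 ≤ d)
    (hh : F.IsHomogeneous d) (hirr : Irreducible F) (hc : eval ![0, 0, 0, 1] F ≠ 0) :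
    ∃ x : Fin (3 + 1) → ℂ, x 0 = 1 ∧ eval x F = 0 ∧ eval x (pderiv 3 F) ≠ 0 := by
  classical
  let σ : Fin (3 + 1) ≃ Fin (3 + 1) := finRotate 4
  set F' : MvPolynomial (Fin (3 + 1)) ℂ := rename σ F with hF'
  have hev : ∀ (G : MvPolynomial (Fin (3 + 1)) ℂ) (t : ℂ) (x : Fin 3 → ℂ),
      eval (Fin.cons t x : Fin (3 + 1) → ℂ) (rename σ G) = eval ![x 0, x 1, x 2, t] G := by
    intro G t x
    rw [eval_rename]
    congr 1
    congr 1
    funext i
    fin_cases i <;> rfl
  have hirr' : Irreducible F' := (MulEquiv.irreducible_iff (renameEquiv ℂ σ)).2 hirr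
  have hc' : eval (Fin.cons 1 0 : Fin (3 + 1) → ℂ) F' ≠ 0 := by
    rw [hF', hev]
    exact hc
  obtain ⟨r, hr, H⟩ := core d hd F' hh.rename_isHomogeneous hirr' hc'
  obtain ⟨r2, hr2, H2⟩ := core2 d F' hh.rename_isHomogeneous hirr' hc'
  have hx : ∃ x : Fin 3 → ℂ, eval x (r * r2 * X 0) ≠ 0 := by
    by_contra hcon
    push Not at hcon
    have : r * r2 * X 0 = 0 := MvPolynomial.funext fun x => by rw [hcon x, map_zero]
    exact (mul_ne_zero (mul_ne_zero hr hr2) (X_ne_zero 0)) this
  obtain ⟨x, hx⟩ := hx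
  rw [map_mul, map_mul, eval_X] at hx
  have hrx : eval x r ≠ 0 := left_ne_zero_of_mul (left_ne_zero_of_mul hx)
  have hr2x : eval x r2 ≠ 0 := right_ne_zero_of_mul (left_ne_zero_of_mul hx)
  have hl : x 0 ≠ 0 := right_ne_zero_of_mul hx
  obtain ⟨t, -, ht0⟩ := H x hrx
  set s : ℂ := t ⟨0, hd⟩ with hs
  have hs0 := ht0 ⟨0, hd⟩
  rw [← hs] at hs0
  have hs1 := H2 x hr2x s hs0
  have hder : pderiv 0 F' = rename σ (pderiv 3 F) := by
    have h := pderiv_rename (R := ℂ) σ.injective (3 : Fin (3 + 1)) F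
    have h3 : σ (3 : Fin (3 + 1)) = 0 := rfl
    rw [h3] at h
    exact h
  rw [hder, hev] at hs1
  rw [hF', hev] at hs0
  have hw : (fun i => x 0 * (![1, x 1 / x 0, x 2 / x 0, s / x 0] : Fin (3 + 1) → ℂ) i) =
      ![x 0, x 1, x 2, s] := by
    funext i
    fin_cases i
    · show x 0 * 1 = x 0
      ring
    · show x 0 * (x 1 / x 0) = x 1
      field_simp
    · show x 0 * (x 2 / x 0) = x 2
      field_simp
    · show x 0 * (s / x 0) = s
      field_simp
  refine ⟨![1, x 1 / x 0, x 2 / x 0, s / x 0], rfl, ?_, ?_⟩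
  · have h := eval_scale hh (x 0) ![1, x 1 / x 0, x 2 / x 0, s / x 0]
    rw [hw, hs0] at h
    exact (mul_eq_zero.1 h.symm).resolve_left (pow_ne_zero _ hl)
  · intro h0
    have h := eval_scale (hh.pderiv (i := 3)) (x 0) ![1, x 1 / x 0, x 2 / x 0, s / x 0]
    rw [hw, h0, mul_zero] at h
    exact hs1 h

end Pool.Agent.TH623.PJ
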